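import Mathlib

/-!
For the finitely generated group `G = ℤ ≀ ℤ` the poset of quasi-parabolic hyperbolic structures
contains an uncountable chain, in fact one of order type `ℝ`.

`G = H ⋊ ⟨t⟩` with `H = ℤ[x, x⁻¹]` and `t` acting as multiplication by `x`. For real `s > 0` let
`Q_s` be the subgroup of all `h` in `H` whose coefficient of `x^(-j)` is divisible by `2^⌊s j⌋` for
all `j ≥ 1`, and `X_s = Q_s ∪ {t}`. Then `G` is the ascending HNN extension of `Q_s` with stable
letter `t`, the Cayley graph of `X_s` is quasi-isometric to the Bass-Serre tree, and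
`[X_s] < [X_s']` for `s < s'`.
-/

set_option autoImplicit false
set_option linter.unusedVariables false

namespace Pool.Agent.Results.MP_484ff1_al.UncountableChain

/-! ### Generating sets, word length, hyperbolicity -/

section General

variable {G : Type*} [Group G]

/-- The word length of `g` with respect to `X`: the least length of a word in `X ∪ X⁻¹` with
product `g`. -/
noncomputable def wlen (X : Set G) (g : G) : ℕ :=
  sInf {n : ℕ | ∃ l : List G, l.length = n ∧ (∀ x ∈ l, x ∈ X ∨ x⁻¹ ∈ X) ∧ l.prod = g}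

variable (G) in
/-- The generating sets of `G` (possibly infinite). -/
def GenSet : Type _ := {X : Set G // Subgroup.closure X = ⊤}

lemma wlen_le_of_list {X : Set G} {g : G} (l : List G) (h1 : ∀ x ∈ l, x ∈ X ∨ x⁻¹ ∈ X)
    (h2 : l.prod = g) : wlen X g ≤ l.length := Nat.sInf_le ⟨l, rfl, h1, h2⟩

lemma exists_list {X : Set G} (hX : Subgroup.closure X = ⊤) (g : G) :
    ∃ l : List G, l.length = wlen X g ∧ (∀ x ∈ l, x ∈ X ∨ x⁻¹ ∈ X) ∧ l.prod = g := by
  have hne : {n : ℕ | ∃ l : List G, l.length = n ∧ (∀ x ∈ l, x ∈ X ∨ x⁻¹ ∈ X) ∧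
      l.prod = g}.Nonempty := by
    have hg : g ∈ Subgroup.closure X := by rw [hX]; exact Subgroup.mem_top g
    rw [← Subgroup.mem_toSubmonoid, Subgroup.closure_toSubmonoid] at hg
    obtain ⟨l, h1, h2⟩ := Submonoid.exists_list_of_mem_closure hg
    exact ⟨l.length, l, rfl, fun x hx => h1 x hx, h2⟩
  exact Nat.sInf_mem hne

lemma wlen_one (X : Set G) : wlen X (1 : G) = 0 :=
  Nat.le_zero.1 (wlen_le_of_list [] (by simp) (by simp))

lemma wlen_mul_le {X : Set G} (hX : Subgroup.closure X = ⊤) (g h : G) :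
    wlen X (g * h) ≤ wlen X g + wlen X h := by
  obtain ⟨l, h1, h2, h3⟩ := exists_list hX g
  obtain ⟨l', h1', h2', h3'⟩ := exists_list hX h
  have := wlen_le_of_list (X := X) (g := g * h) (l ++ l')
    (by intro x hx; rcases List.mem_append.1 hx with h | h; exacts [h2 x h, h2' x h])
    (by rw [List.prod_append, h3, h3'])
  rwa [List.length_append, h1, h1'] at this

lemma wlen_inv_le {X : Set G} (hX : Subgroup.closure X = ⊤) (g : G) :
    wlen X g⁻¹ ≤ wlen X g := by
  obtain ⟨l, h1, h2, h3⟩ := exists_list hX g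
  have := wlen_le_of_list (X := X) (g := g⁻¹) (l.map (fun x => x⁻¹)).reverse
    (by
      intro x hx
      rw [List.mem_reverse, List.mem_map] at hx
      obtain ⟨y, hy, rfl⟩ := hx
      rw [inv_inv]
      exact (h2 y hy).symm)
    (by rw [← List.prod_inv_reverse, h3])
  rwa [List.length_reverse, List.length_map, h1] at this

lemma wlen_prod_le {X : Set G} (hX : Subgroup.closure X = ⊤) (C : ℕ) (l : List G)
    (h : ∀ x ∈ l, wlen X x ≤ C) : wlen X l.prod ≤ C * l.length := by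
  induction l with
  | nil => simp [wlen_one]
  | cons a l ih =>
    rw [List.prod_cons, List.length_cons]
    have h1 := wlen_mul_le hX a l.prod
    have h2 := h a (by simp)
    have h3 := ih (fun x hx => h x (by simp [hx]))
    calc wlen X (a * l.prod) ≤ C + C * l.length := by omega
      _ = C * (l.length + 1) := by ring

/-- `Y ⪯ X` if the word lengths of the elements of `X` with respect to `Y` are bounded. -/
instance : Preorder (GenSet G) where
  le Y X := ∃ C : ℕ, ∀ x ∈ X.1, wlen Y.1 x ≤ C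
  le_refl X := by
    refine ⟨1, fun x hx => ?_⟩
    have := wlen_le_of_list (X := X.1) (g := x) [x] (by simpa using Or.inl hx) (by simp)
    simpa using this
  le_trans Z Y X := by
    rintro ⟨C1, h1⟩ ⟨C2, h2⟩
    refine ⟨C1 * C2, fun x hx => ?_⟩
    obtain ⟨l, h3, h4, h5⟩ := exists_list Y.2 x
    have h6 : ∀ y ∈ l, wlen Z.1 y ≤ C1 := by
      intro y hy
      rcases h4 y hy with h | h
      · exact h1 y h
      · have h7 := h1 _ h
        have h8 := wlen_inv_le Z.2 y⁻¹
        rw [inv_inv] at h8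
        exact h8.trans h7
    have h7 := wlen_prod_le Z.2 C1 l h6
    rw [h5, h3] at h7
    exact h7.trans (Nat.mul_le_mul_left _ (h2 x hx))

variable (G) in
/-- The poset of all classes of generating sets of `G`. -/
abbrev Struct : Type _ := Antisymmetrization (GenSet G) (· ≤ ·)

/-- The distance in the Cayley graph of `(G, X)`, on the vertices. -/
noncomputable def cdist (X : Set G) (g h : G) : ℕ := wlen X (g⁻¹ * h)

/-- The Cayley graph of `(G, X)` is Gromov hyperbolic (the four point condition). -/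
def Hyperbolic (X : Set G) : Prop :=
  ∃ δ : ℕ, ∀ a b c d : G, cdist X a b + cdist X c d ≤
    max (cdist X a c + cdist X b d) (cdist X a d + cdist X b c) + δ

/-- The Gromov product of `a` and `b` at `1` in the Cayley graph of `(G, X)`. -/
noncomputable def gp (X : Set G) (a b : G) : ℝ :=
  ((cdist X 1 a : ℝ) + cdist X 1 b - cdist X a b) / 2

/-- The Gromov products of `u i` and `v j` tend to infinity. For `u = v` this says that `u`
converges to a point of the Gromov boundary; for two such sequences it says that they converge to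
the same point. -/
def ConvInf (X : Set G) (u v : ℕ → G) : Prop :=
  ∀ R : ℝ, ∃ N : ℕ, ∀ i ≥ N, ∀ j ≥ N, R ≤ gp X (u i) (v j)

/-- The action of `G` on its Cayley graph is quasi-parabolic: `G` fixes a point of the Gromov
boundary, and the limit set (the set of the boundary points that are limits of sequences in the
orbit `G`) is infinite. -/
def QuasiParabolic (X : Set G) : Prop :=
  (∃ u : ℕ → G, ConvInf X u u ∧ ∀ g : G, ConvInf X u (fun n => g * u n)) ∧
    ∃ U : ℕ → ℕ → G, (∀ i, ConvInf X (U i) (U i)) ∧ ∀ i j, i ≠ j → ¬ ConvInf X (U i) (U j)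

variable (G) in
/-- The set of the quasi-parabolic hyperbolic structures on `G`. -/
def Hqp : Set (Struct G) :=
  {c | ∃ X : GenSet G, toAntisymmetrization (· ≤ ·) X = c ∧ Hyperbolic X.1 ∧ QuasiParabolic X.1}

end General

/-! ### The group `ℤ ≀ ℤ` -/

/-- The wreath product `ℤ ≀ ℤ`: pairs `(f, k)` of a finitely supported function `ℤ → ℤ` and an
integer. -/
@[ext] structure W where
  f : ℤ →₀ ℤ
  k : ℤ

/-- The shift of a finitely supported function. -/
noncomputable def shift (k : ℤ) (f : ℤ →₀ ℤ) : ℤ →₀ ℤ := f.equivMapDomain (Equiv.addRight k)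

@[simp] lemma shift_apply (k : ℤ) (f : ℤ →₀ ℤ) (n : ℤ) : shift k f n = f (n - k) := by
  simp [shift, Finsupp.equivMapDomain_apply, sub_eq_add_neg]

noncomputable instance : Mul W := ⟨fun a b => ⟨a.f + shift a.k b.f, a.k + b.k⟩⟩
noncomputable instance : One W := ⟨⟨0, 0⟩⟩
noncomputable instance : Inv W := ⟨fun a => ⟨-shift (-a.k) a.f, -a.k⟩⟩

@[simp] lemma mul_f (a b : W) : (a * b).f = a.f + shift a.k b.f := rfl
@[simp] lemma mul_k (a b : W) : (a * b).k = a.k + b.k := rfl
@[simp] lemma one_f : (1 : W).f = 0 := rfl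
@[simp] lemma one_k : (1 : W).k = 0 := rfl
@[simp] lemma inv_f (a : W) : (a⁻¹).f = -shift (-a.k) a.f := rfl
@[simp] lemma inv_k (a : W) : (a⁻¹).k = -a.k := rfl

noncomputable instance : Group W :=
  Group.ofLeftAxioms
    (by
      intro a b c
      ext n
      · simp only [mul_f, mul_k, Finsupp.add_apply, shift_apply]
        rw [add_assoc]
        congr 3
        ring
      · simp only [mul_k]; ring)
    (by
      intro a
      ext n
      · simp
      · simp)
    (by
      intro a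
      ext n
      · simp
      · simp)

/-- The element `(h, 0)`. -/
def ι (h : ℤ →₀ ℤ) : W := ⟨h, 0⟩
/-- The element `(0, k) = t ^ k`. -/
noncomputable def τ (k : ℤ) : W := ⟨0, k⟩

@[simp] lemma ι_f (h : ℤ →₀ ℤ) : (ι h).f = h := rfl
@[simp] lemma ι_k (h : ℤ →₀ ℤ) : (ι h).k = 0 := rfl
@[simp] lemma τ_f (k : ℤ) : (τ k).f = 0 := rfl
@[simp] lemma τ_k (k : ℤ) : (τ k).k = k := rfl

lemma shift_zero' (k : ℤ) : shift k 0 = 0 := by ext n; simp
lemma shift_of_zero (f : ℤ →₀ ℤ) : shift 0 f = f := by ext n; simp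

lemma τ_add (k l : ℤ) : τ (k + l) = τ k * τ l := by
  ext n
  · simp [shift_zero']
  · simp

lemma τ_zero : τ 0 = 1 := by
  ext n
  · simp
  · simp

lemma τ_neg (k : ℤ) : τ (-k) = (τ k)⁻¹ := by
  rw [eq_inv_iff_mul_eq_one, ← τ_add, neg_add_cancel, τ_zero]

lemma τ_pow (n : ℕ) : (τ 1) ^ n = τ n := by
  induction n with
  | zero => simp [τ_zero]
  | succ n ih => rw [pow_succ, ih, ← τ_add]; push_cast; rfl

lemma ι_add (a b : ℤ →₀ ℤ) : ι (a + b) = ι a * ι b := by
  ext n
  · simp [shift_of_zero]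
  · simp

lemma ι_zero : ι 0 = 1 := by
  ext n
  · simp
  · simp

lemma ι_neg (a : ℤ →₀ ℤ) : ι (-a) = (ι a)⁻¹ := by
  rw [eq_inv_iff_mul_eq_one, ← ι_add, neg_add_cancel, ι_zero]

lemma decomp (g : W) : g = ι g.f * τ g.k := by
  ext n
  · simp
  · simp

lemma conj_τ (k : ℤ) (h : ℤ →₀ ℤ) : τ k * ι h * τ (-k) = ι (shift k h) := by
  ext n
  · simp
  · simp

/-! ### The subgroups `Q_s` -/

/-- The exponent `⌊-s i⌋₊` (zero for `i ≥ 0`). -/
noncomputable def ex (s : ℝ) (i : ℤ) : ℕ := ⌊-(s * i)⌋₊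

lemma ex_anti {s : ℝ} (hs : 0 < s) {i j : ℤ} (h : i ≤ j) : ex s j ≤ ex s i := by
  apply Nat.floor_le_floor
  have : (i : ℝ) ≤ j := by exact_mod_cast h
  nlinarith

lemma ex_nonneg {s : ℝ} (hs : 0 < s) {i : ℤ} (h : 0 ≤ i) : ex s i = 0 := by
  apply Nat.floor_of_nonpos
  have : (0 : ℝ) ≤ i := by exact_mod_cast h
  nlinarith

/-- `x ^ n * h` lies in `Q_s`. -/
def P (s : ℝ) (h : ℤ →₀ ℤ) (n : ℤ) : Prop := ∀ i : ℤ, (2 : ℤ) ^ ex s (i + n) ∣ h i

lemma P_mono {s : ℝ} (hs : 0 < s) {h : ℤ →₀ ℤ} {n m : ℤ} (hnm : n ≤ m) (hP : P s h n) :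
    P s h m := fun i => (pow_dvd_pow 2 (ex_anti hs (by omega))).trans (hP i)

lemma P_zero (s : ℝ) (n : ℤ) : P s 0 n := fun i => by simp

lemma P_add {s : ℝ} {a b : ℤ →₀ ℤ} {n : ℤ} (ha : P s a n) (hb : P s b n) : P s (a + b) n :=
  fun i => by rw [Finsupp.add_apply]; exact dvd_add (ha i) (hb i)

lemma P_neg {s : ℝ} {a : ℤ →₀ ℤ} {n : ℤ} (ha : P s a n) : P s (-a) n :=
  fun i => by rw [Finsupp.neg_apply]; exact (dvd_neg).2 (ha i)

lemma P_shift {s : ℝ} {a : ℤ →₀ ℤ} {n k : ℤ} : P s (shift k a) n ↔ P s a (n + k) := by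
  constructor
  · intro h i
    have := h (i + k)
    rw [shift_apply] at this
    have e1 : i + k - k = i := by ring
    have e2 : i + k + n = i + (n + k) := by ring
    rwa [e1, e2] at this
  · intro h i
    rw [shift_apply]
    have := h (i - k)
    have e2 : i - k + (n + k) = i + n := by ring
    rwa [e2] at this

lemma P_exists {s : ℝ} (hs : 0 < s) (h : ℤ →₀ ℤ) : ∃ n : ℕ, P s h n := by
  obtain ⟨B, hB⟩ : ∃ B : ℕ, ∀ i ∈ h.support, -i ≤ B := by
    refine ⟨h.support.sup (fun i => (-i).toNat), fun i hi => ?_⟩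
    have h1 : (-i).toNat ≤ h.support.sup (fun i => (-i).toNat) :=
      Finset.le_sup (f := fun i : ℤ => (-i).toNat) hi
    have h2 := Int.self_le_toNat (-i)
    exact h2.trans (by exact_mod_cast h1)
  refine ⟨B, fun i => ?_⟩
  by_cases hi : i ∈ h.support
  · rw [ex_nonneg hs (by have := hB i hi; omega)]
    simp
  · rw [Finsupp.notMem_support_iff] at hi
    rw [hi]; exact dvd_zero _

/-! ### The tree metric -/

/-- The admissible heights of a common ancestor. -/
def A (s : ℝ) (a b : W) : Set ℤ := {n | -a.k ≤ n ∧ -b.k ≤ n ∧ P s (b.f - a.f) n}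

noncomputable def M (s : ℝ) (a b : W) : ℤ := sInf (A s a b)

lemma A_nonempty {s : ℝ} (hs : 0 < s) (a b : W) : (A s a b).Nonempty := by
  obtain ⟨n, hn⟩ := P_exists hs (b.f - a.f)
  refine ⟨max n (max (-a.k) (-b.k)), ?_, ?_, P_mono hs (le_max_left _ _) hn⟩
  · exact (le_max_left _ _).trans (le_max_right _ _)
  · exact (le_max_right _ _).trans (le_max_right _ _)

lemma A_bdd (s : ℝ) (a b : W) : BddBelow (A s a b) := ⟨-a.k, fun n hn => hn.1⟩

lemma M_mem {s : ℝ} (hs : 0 < s) (a b : W) : M s a b ∈ A s a b :=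
  Int.csInf_mem (A_nonempty hs a b) (A_bdd s a b)

lemma M_le {s : ℝ} {a b : W} {n : ℤ} (h1 : -a.k ≤ n) (h2 : -b.k ≤ n) (h3 : P s (b.f - a.f) n) :
    M s a b ≤ n := csInf_le (A_bdd s a b) ⟨h1, h2, h3⟩

lemma M_comm {s : ℝ} (hs : 0 < s) (a b : W) : M s a b = M s b a := by
  apply le_antisymm
  · obtain ⟨h1, h2, h3⟩ := M_mem hs b a
    refine M_le h2 h1 ?_
    have := P_neg h3
    rwa [neg_sub] at this
  · obtain ⟨h1, h2, h3⟩ := M_mem hs a b
    refine M_le h2 h1 ?_
    have := P_neg h3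
    rwa [neg_sub] at this

lemma M_ultra {s : ℝ} (hs : 0 < s) (a b c : W) : M s a c ≤ max (M s a b) (M s b c) := by
  obtain ⟨h1, h2, h3⟩ := M_mem hs a b
  obtain ⟨h4, h5, h6⟩ := M_mem hs b c
  refine M_le (h1.trans (le_max_left _ _)) (h5.trans (le_max_right _ _)) ?_
  have h7 := P_add (P_mono hs (le_max_left _ _) h3) (P_mono hs (le_max_right (M s a b) _) h6)
  have e : b.f - a.f + (c.f - b.f) = c.f - a.f := by abel
  rwa [e] at h7

lemma shift_sub (k : ℤ) (a b : ℤ →₀ ℤ) : shift k (a - b) = shift k a - shift k b := by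
  ext n; simp

lemma M_mul {s : ℝ} (hs : 0 < s) (g a b : W) : M s (g * a) (g * b) = M s a b - g.k := by
  have key : ∀ n : ℤ, n ∈ A s (g * a) (g * b) ↔ n + g.k ∈ A s a b := by
    intro n
    have e : (g * b).f - (g * a).f = shift g.k (b.f - a.f) := by
      rw [shift_sub]; simp
    constructor
    · rintro ⟨h1, h2, h3⟩
      rw [mul_k] at h1 h2
      rw [e, P_shift] at h3
      exact ⟨by omega, by omega, h3⟩
    · rintro ⟨h1, h2, h3⟩
      refine ⟨by rw [mul_k]; omega, by rw [mul_k]; omega, ?_⟩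
      rw [e, P_shift]; exact h3
  apply le_antisymm
  · have h := M_mem hs a b
    have h2 : M s a b - g.k ∈ A s (g * a) (g * b) := by
      rw [key]; simpa using h
    exact csInf_le (A_bdd _ _ _) h2
  · have h := M_mem hs (g * a) (g * b)
    rw [key] at h
    have := csInf_le (A_bdd _ _ _) h
    have h3 : M s a b ≤ M s (g * a) (g * b) + g.k := this
    omega

/-- The distance in the Bass-Serre tree. -/
noncomputable def D (s : ℝ) (a b : W) : ℤ := a.k + b.k + 2 * M s a b

lemma D_mul {s : ℝ} (hs : 0 < s) (g a b : W) : D s (g * a) (g * b) = D s a b := by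
  unfold D
  rw [M_mul hs]
  simp only [mul_k]
  ring

lemma D_triangle {s : ℝ} (hs : 0 < s) (a b c : W) : D s a c ≤ D s a b + D s b c := by
  have h1 := M_ultra hs a b c
  have h2 := (M_mem hs a b).2.1
  have h3 := (M_mem hs b c).1
  unfold D
  rcases le_max_iff.1 h1 with h | h <;> omega

lemma D_self {s : ℝ} (hs : 0 < s) (a : W) : D s a a = 0 := by
  have h1 : M s a a ≤ -a.k := M_le le_rfl le_rfl (by rw [sub_self]; exact P_zero s _)
  have h2 := (M_mem hs a a).1
  unfold D; omega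

lemma D_nonneg {s : ℝ} (hs : 0 < s) (a b : W) : 0 ≤ D s a b := by
  have h1 := (M_mem hs a b).1
  have h2 := (M_mem hs a b).2.1
  unfold D; omega

/-! ### The generating sets `X_s` -/

/-- `X_s = Q_s ∪ {t}`. -/
def XX (s : ℝ) : Set W := {g | (g.k = 0 ∧ P s g.f 0) ∨ g = τ 1}

lemma D_gen {s : ℝ} (hs : 0 < s) {g : W} (h : g ∈ XX s ∨ g⁻¹ ∈ XX s) : D s 1 g ≤ 1 := by
  have key : ∀ g : W, g ∈ XX s → D s 1 g ≤ 1 := by
    intro g hg
    rcases hg with ⟨h1, h2⟩ | rfl
    · have : M s 1 g ≤ 0 := M_le (by simp) (by rw [h1]; simp) (by simpa using h2)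
      unfold D; rw [h1]; simp; omega
    · have : M s 1 (τ 1) ≤ 0 := M_le (by simp) (by simp) (by simpa using P_zero s 0)
      unfold D; simp; omega
  rcases h with h | h
  · exact key g h
  · have h1 := key _ h
    have h2 := D_mul hs g 1 g⁻¹
    rw [mul_one, mul_inv_cancel] at h2
    rw [← h2] at h1
    unfold D at h1 ⊢
    rw [M_comm hs]
    omega

lemma D_list {s : ℝ} (hs : 0 < s) (l : List W) (h : ∀ x ∈ l, x ∈ XX s ∨ x⁻¹ ∈ XX s) :
    D s 1 l.prod ≤ l.length := by
  induction l with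
  | nil => simp [D_self hs]
  | cons a l ih =>
    rw [List.prod_cons, List.length_cons]
    have h1 := D_triangle hs 1 a (a * l.prod)
    have h2 := D_mul hs a 1 l.prod
    rw [mul_one] at h2
    have h3 := D_gen hs (h a (by simp))
    have h4 := ih (fun x hx => h x (by simp [hx]))
    push_cast
    omega

/-- Explicit words. -/
lemma exists_word {s : ℝ} (hs : 0 < s) (g : W) : ∃ l : List W, (l.length : ℤ) = D s 1 g + 1 ∧
    (∀ x ∈ l, x ∈ XX s ∨ x⁻¹ ∈ XX s) ∧ l.prod = g := by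
  obtain ⟨h1, h2, h3⟩ := M_mem hs 1 g
  simp only [one_k, neg_zero, one_f, sub_zero] at h1 h3
  obtain ⟨n, hn⟩ := Int.eq_ofNat_of_zero_le h1
  obtain ⟨m, hm⟩ := Int.eq_ofNat_of_zero_le (show (0 : ℤ) ≤ M s 1 g + g.k by omega)
  refine ⟨List.replicate n (τ 1)⁻¹ ++ ([ι (shift n g.f)] ++ List.replicate m (τ 1)), ?_, ?_, ?_⟩
  · simp only [List.length_append, List.length_replicate, List.length_cons, List.length_nil]
    unfold D
    rw [one_k]
    push_cast
    omega
  · intro x hx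
    simp only [List.mem_append, List.mem_replicate, List.mem_singleton] at hx
    rcases hx with ⟨_, rfl⟩ | rfl | ⟨_, rfl⟩
    · right; rw [inv_inv]; right; rfl
    · left; left
      refine ⟨rfl, ?_⟩
      rw [ι_f, P_shift, zero_add, ← hn]
      exact h3
    · left; right; rfl
  · rw [List.prod_append, List.prod_append, List.prod_replicate, List.prod_replicate,
      List.prod_singleton, inv_pow, τ_pow, τ_pow, ← τ_neg, ← conj_τ]
    have e1 : (τ (-(n : ℤ))) * (τ (n : ℤ) * ι g.f * τ (-(n : ℤ)) * τ (m : ℤ)) =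
        (τ (-(n : ℤ)) * τ (n : ℤ)) * ι g.f * (τ (-(n : ℤ)) * τ (m : ℤ)) := by
      simp only [mul_assoc]
    rw [e1, ← τ_add, ← τ_add, neg_add_cancel, τ_zero, one_mul]
    have e2 : -(n : ℤ) + m = g.k := by omega
    rw [e2]
    exact (decomp g).symm

lemma XX_closure {s : ℝ} (hs : 0 < s) : Subgroup.closure (XX s) = ⊤ := by
  rw [eq_top_iff]
  intro g _
  obtain ⟨l, -, h1, rfl⟩ := exists_word hs g
  apply Subgroup.list_prod_mem
  intro x hx
  rcases h1 x hx with h | h
  · exact Subgroup.subset_closure h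
  · exact (Subgroup.inv_mem_iff _).1 (Subgroup.subset_closure h)

lemma wlen_lower {s : ℝ} (hs : 0 < s) (g : W) : D s 1 g ≤ wlen (XX s) g := by
  obtain ⟨l, h1, h2, h3⟩ := exists_list (XX_closure hs) g
  have := D_list hs l h2
  rwa [h3, h1] at this

lemma wlen_upper {s : ℝ} (hs : 0 < s) (g : W) : (wlen (XX s) g : ℤ) ≤ D s 1 g + 1 := by
  obtain ⟨l, h1, h2, h3⟩ := exists_word hs g
  have := wlen_le_of_list l h2 h3
  omega

lemma cdist_lower {s : ℝ} (hs : 0 < s) (a b : W) : D s a b ≤ cdist (XX s) a b := by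
  have h1 := wlen_lower hs (a⁻¹ * b)
  have h2 := D_mul hs a 1 (a⁻¹ * b)
  rw [mul_one, mul_inv_cancel_left] at h2
  rwa [← h2] at h1

lemma cdist_upper {s : ℝ} (hs : 0 < s) (a b : W) : (cdist (XX s) a b : ℤ) ≤ D s a b + 1 := by
  have h1 := wlen_upper hs (a⁻¹ * b)
  have h2 := D_mul hs a 1 (a⁻¹ * b)
  rw [mul_one, mul_inv_cancel_left] at h2
  rwa [← h2] at h1

lemma hyperbolic_XX {s : ℝ} (hs : 0 < s) : Hyperbolic (XX s) := by
  refine ⟨2, fun a b c d => ?_⟩
  have l1 := cdist_upper hs a b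
  have l2 := cdist_upper hs c d
  have l3 := cdist_lower hs a c
  have l4 := cdist_lower hs b d
  have l5 := cdist_lower hs a d
  have l6 := cdist_lower hs b c
  unfold D at l1 l2 l3 l4 l5 l6
  have m1 := le_max_iff.1 (M_ultra hs a c b)
  have m2 := le_max_iff.1 (M_ultra hs a d b)
  have m3 := le_max_iff.1 (M_ultra hs c a d)
  have m4 := le_max_iff.1 (M_ultra hs c b d)
  rw [M_comm hs c b] at m1 m4
  rw [M_comm hs d b] at m2
  rw [M_comm hs c a] at m3
  omega

/-- The Gromov product in the tree. -/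
noncomputable def GD (s : ℝ) (a b : W) : ℤ := M s 1 a + M s 1 b - M s a b

lemma gp_lower {s : ℝ} (hs : 0 < s) (a b : W) : (GD s a b : ℝ) - 1 / 2 ≤ gp (XX s) a b := by
  have l1 := cdist_lower hs 1 a
  have l2 := cdist_lower hs 1 b
  have l3 := cdist_upper hs a b
  unfold D at l1 l2 l3
  rw [one_k] at l1 l2
  have h : 2 * GD s a b - 1 ≤ (cdist (XX s) 1 a : ℤ) + cdist (XX s) 1 b - cdist (XX s) a b := by
    unfold GD; omega
  have h2 : (2 * (GD s a b : ℝ) - 1) ≤
      (cdist (XX s) 1 a : ℝ) + cdist (XX s) 1 b - cdist (XX s) a b := by exact_mod_cast h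
  unfold gp
  linarith

lemma gp_upper {s : ℝ} (hs : 0 < s) (a b : W) : gp (XX s) a b ≤ (GD s a b : ℝ) + 1 := by
  have l1 := cdist_upper hs 1 a
  have l2 := cdist_upper hs 1 b
  have l3 := cdist_lower hs a b
  unfold D at l1 l2 l3
  rw [one_k] at l1 l2
  have h : (cdist (XX s) 1 a : ℤ) + cdist (XX s) 1 b - cdist (XX s) a b ≤ 2 * GD s a b + 2 := by
    unfold GD; omega
  have h2 : (cdist (XX s) 1 a : ℝ) + cdist (XX s) 1 b - cdist (XX s) a b ≤
      2 * (GD s a b : ℝ) + 2 := by exact_mod_cast h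
  unfold gp
  linarith

lemma convInf_of {s : ℝ} (hs : 0 < s) {u v : ℕ → W}
    (h : ∀ R : ℕ, ∃ N : ℕ, ∀ i ≥ N, ∀ j ≥ N, (R : ℤ) ≤ GD s (u i) (v j)) :
    ConvInf (XX s) u v := by
  intro R
  obtain ⟨N, hN⟩ := h ⌈R + 1⌉₊
  refine ⟨N, fun i hi j hj => ?_⟩
  have h1 := hN i hi j hj
  have h2 := gp_lower hs (u i) (v j)
  have h3 := Nat.le_ceil (R + 1)
  have h4 : ((⌈R + 1⌉₊ : ℕ) : ℝ) ≤ (GD s (u i) (v j) : ℝ) := by exact_mod_cast h1
  linarith

lemma quasiParabolic_XX {s : ℝ} (hs : 0 < s) : QuasiParabolic (XX s) := by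
  constructor
  · -- the fixed point
    have key : ∀ g : W, ConvInf (XX s) (fun n => τ (-(n : ℤ))) (fun n => g * τ (-(n : ℤ))) := by
      intro g
      apply convInf_of hs
      intro R
      obtain ⟨n0, hn0⟩ := P_exists hs g.f
      refine ⟨R + n0 + g.k.natAbs, fun i hi j hj => ?_⟩
      have h1 : (i : ℤ) ≤ M s 1 (τ (-(i : ℤ))) := by
        have := (M_mem hs 1 (τ (-(i : ℤ)))).2.1
        simpa using this
      have h2 : (j : ℤ) - g.k ≤ M s 1 (g * τ (-(j : ℤ))) := by
        have := (M_mem hs 1 (g * τ (-(j : ℤ)))).2.1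
        simp only [mul_k, τ_k] at this
        omega
      have h3 : M s (τ (-(i : ℤ))) (g * τ (-(j : ℤ))) ≤ max (i : ℤ) (max ((j : ℤ) - g.k) n0) := by
        apply M_le
        · simp
        · simp only [mul_k, τ_k]
          have : (j : ℤ) - g.k ≤ max (i : ℤ) (max ((j : ℤ) - g.k) n0) :=
            (le_max_left _ _).trans (le_max_right _ _)
          omega
        · simp only [mul_f, τ_f, shift_zero', add_zero, sub_zero]
          exact P_mono hs ((le_max_right _ _).trans (le_max_right _ _)) hn0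
      have h4 : (g.k.natAbs : ℤ) = |g.k| := Int.natCast_natAbs _
      have h5 := abs_le.1 (le_refl |g.k|)
      unfold GD
      zify at hi hj
      rcases max_cases (i : ℤ) (max ((j : ℤ) - g.k) n0) with ⟨h6, _⟩ | ⟨h6, _⟩ <;>
      rcases max_cases ((j : ℤ) - g.k) (n0 : ℤ) with ⟨h7, _⟩ | ⟨h7, _⟩ <;> omega
    refine ⟨fun n => τ (-(n : ℤ)), ?_, key⟩
    have := key 1
    simpa using this
  · refine ⟨fun i n => ⟨Finsupp.single 0 (i : ℤ), (n : ℤ)⟩, ?_, ?_⟩
    · intro i
      apply convInf_of hs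
      intro R
      refine ⟨R, fun n hn m hm => ?_⟩
      have h1 := (M_mem hs 1 (⟨Finsupp.single 0 (i : ℤ), (n : ℤ)⟩ : W)).1
      have h2 := (M_mem hs 1 (⟨Finsupp.single 0 (i : ℤ), (m : ℤ)⟩ : W)).1
      rw [one_k, neg_zero] at h1 h2
      have h3 : M s (⟨Finsupp.single 0 (i : ℤ), (n : ℤ)⟩ : W) ⟨Finsupp.single 0 (i : ℤ), (m : ℤ)⟩ ≤
          -(R : ℤ) := by
        apply M_le
        · simp only; omega
        · simp only; omega
        · simp only [sub_self]; exact P_zero s _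
      show (R : ℤ) ≤ GD s (⟨Finsupp.single 0 (i : ℤ), (n : ℤ)⟩ : W)
        ⟨Finsupp.single 0 (i : ℤ), (m : ℤ)⟩
      unfold GD
      omega
    · intro i j hij hconv
      have hc : (j : ℤ) - i ≠ 0 := by omega
      -- a lower bound for the height
      obtain ⟨L, hL⟩ : ∃ L : ℕ, (2 : ℤ) ^ ex s (-(L : ℤ)) ∣ (j : ℤ) - i → False := by
        obtain ⟨L, hL⟩ := exists_nat_gt ((((j : ℤ) - i).natAbs + 1 : ℝ) / s)
        refine ⟨L, fun hdvd => ?_⟩
        have h1 : (((j : ℤ) - i).natAbs + 1 : ℝ) ≤ s * L := by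
          rw [div_lt_iff₀ hs] at hL; linarith
        have h2 : ((j : ℤ) - i).natAbs + 1 ≤ ex s (-(L : ℤ)) := by
          unfold ex
          apply Nat.le_floor
          push_cast
          linarith
        have h3 := Int.natAbs_dvd_natAbs.2 hdvd
        rw [Int.natAbs_pow] at h3
        have h4 := Nat.le_of_dvd (by omega) h3
        have h5 : ex s (-(L : ℤ)) < 2 ^ ex s (-(L : ℤ)) := Nat.lt_two_pow_self
        have h6 : (2 : ℤ).natAbs = 2 := rfl
        rw [h6] at h4
        omega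
      obtain ⟨N, hN⟩ := hconv (L + 3)
      have h1 := hN (max N 1) (le_max_left _ _) (max N 1) (le_max_left _ _)
      set n : ℕ := max N 1 with hn
      have h2 := gp_upper hs (⟨Finsupp.single 0 (i : ℤ), (n : ℤ)⟩ : W)
        ⟨Finsupp.single 0 (j : ℤ), (n : ℤ)⟩
      have hP0 : ∀ c : ℤ, P s (Finsupp.single 0 c) 0 := by
        intro c l
        by_cases hl : l = 0
        · rw [hl, ex_nonneg hs (by simp)]; simp
        · rw [Finsupp.single_eq_of_ne hl]; exact dvd_zero _
      have h3 : M s 1 (⟨Finsupp.single 0 (i : ℤ), (n : ℤ)⟩ : W) ≤ 0 :=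
        M_le (by simp) (by simp) (by simpa using hP0 i)
      have h4 : M s 1 (⟨Finsupp.single 0 (j : ℤ), (n : ℤ)⟩ : W) ≤ 0 :=
        M_le (by simp) (by simp) (by simpa using hP0 j)
      have h5 : -(L : ℤ) ≤ M s (⟨Finsupp.single 0 (i : ℤ), (n : ℤ)⟩ : W)
          ⟨Finsupp.single 0 (j : ℤ), (n : ℤ)⟩ := by
        by_contra hlt
        push Not at hlt
        have h6 := (M_mem hs (⟨Finsupp.single 0 (i : ℤ), (n : ℤ)⟩ : W)
          ⟨Finsupp.single 0 (j : ℤ), (n : ℤ)⟩).2.2
        have h7 := P_mono hs hlt.le h6 0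
        simp only [Finsupp.sub_apply, Finsupp.single_eq_same, zero_add] at h7
        exact hL h7
      have h6 : GD s (⟨Finsupp.single 0 (i : ℤ), (n : ℤ)⟩ : W)
          ⟨Finsupp.single 0 (j : ℤ), (n : ℤ)⟩ ≤ L := by
        unfold GD; omega
      have h7 : (GD s (⟨Finsupp.single 0 (i : ℤ), (n : ℤ)⟩ : W)
          ⟨Finsupp.single 0 (j : ℤ), (n : ℤ)⟩ : ℝ) ≤ L := by exact_mod_cast h6
      have h8 : (L + 3 : ℝ) ≤ gp (XX s) (⟨Finsupp.single 0 (i : ℤ), (n : ℤ)⟩ : W)
        ⟨Finsupp.single 0 (j : ℤ), (n : ℤ)⟩ := h1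
      linarith

/-! ### The chain -/

/-- The structure `[X_s]`, `s = exp r`. -/
noncomputable def gen (r : ℝ) : GenSet W := ⟨XX (Real.exp r), XX_closure (Real.exp_pos r)⟩

lemma gen_le {r r' : ℝ} (h : r ≤ r') : gen r ≤ gen r' := by
  refine ⟨1, fun x hx => ?_⟩
  have h1 : Real.exp r ≤ Real.exp r' := Real.exp_le_exp.2 h
  have hx' : x ∈ XX (Real.exp r) := by
    rcases hx with ⟨h2, h3⟩ | h2
    · left
      refine ⟨h2, fun i => ?_⟩
      refine (pow_dvd_pow 2 ?_).trans (h3 i)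
      by_cases hi : 0 ≤ i + 0
      · rw [ex_nonneg (Real.exp_pos r) hi]; exact Nat.zero_le _
      · apply Nat.floor_le_floor
        push Not at hi
        have h4 : ((i + 0 : ℤ) : ℝ) ≤ 0 := by exact_mod_cast hi.le
        nlinarith
    · right; exact h2
  have := wlen_le_of_list (X := XX (Real.exp r)) (g := x) [x] (by simpa using Or.inl hx') (by simp)
  have h9 : wlen (XX (Real.exp r)) x ≤ 1 := by simpa using this
  exact h9

lemma gen_not_le {r r' : ℝ} (h : r < r') : ¬ gen r' ≤ gen r := by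
  rintro ⟨C, hC⟩
  have hs := Real.exp_pos r
  have hs' := Real.exp_pos r'
  have h1 : Real.exp r < Real.exp r' := Real.exp_lt_exp.2 h
  set s := Real.exp r
  set s' := Real.exp r'
  obtain ⟨j, hj⟩ := exists_nat_gt ((s' * C + 1) / (s' - s))
  have hj2 : s' * C + 1 < (s' - s) * j := by
    rw [div_lt_iff₀ (by linarith)] at hj; linarith
  have hmem : ι (Finsupp.single (-(j : ℤ)) ((2 : ℤ) ^ ex s (-(j : ℤ)))) ∈ XX s := by
    left
    refine ⟨rfl, fun i => ?_⟩
    rw [ι_f]
    by_cases hi : i = -(j : ℤ)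
    · rw [hi, Finsupp.single_eq_same, add_zero]
    · rw [Finsupp.single_eq_of_ne hi]; exact dvd_zero _
  have h2 := hC _ hmem
  have h3 := wlen_lower hs' (ι (Finsupp.single (-(j : ℤ)) ((2 : ℤ) ^ ex s (-(j : ℤ)))))
  have h4 : wlen (gen r').1 (ι (Finsupp.single (-(j : ℤ)) ((2 : ℤ) ^ ex s (-(j : ℤ))))) =
    wlen (XX s') (ι (Finsupp.single (-(j : ℤ)) ((2 : ℤ) ^ ex s (-(j : ℤ))))) := rfl
  rw [h4] at h2
  obtain ⟨h5, -, h6⟩ := M_mem hs' 1 (ι (Finsupp.single (-(j : ℤ)) ((2 : ℤ) ^ ex s (-(j : ℤ)))))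
  unfold D at h3
  simp only [one_k, ι_k, one_f, sub_zero, ι_f, neg_zero] at h3 h5 h6
  have h7 := P_mono hs' (m := (C : ℤ)) (by omega) h6 (-(j : ℤ))
  rw [Finsupp.single_eq_same] at h7
  have h8 : ex s' (-(j : ℤ) + C) ≤ ex s (-(j : ℤ)) := by
    by_contra hlt
    push Not at hlt
    have h9 := Int.le_of_dvd (by positivity) h7
    have h10 : (2 : ℤ) ^ ex s (-(j : ℤ)) < 2 ^ ex s' (-(j : ℤ) + C) :=
      pow_lt_pow_right₀ (by norm_num) hlt
    omega
  unfold ex at h8
  have h9 : (⌊-(s * ((-(j : ℤ) : ℤ) : ℝ))⌋₊ : ℝ) ≤ s * j := by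
    refine (Nat.floor_le ?_).trans (le_of_eq (by push_cast; ring))
    push_cast
    have : (0 : ℝ) ≤ s * j := by positivity
    linarith
  have h10 : -(s' * ((-(j : ℤ) + C : ℤ) : ℝ)) < (⌊-(s' * ((-(j : ℤ) + C : ℤ) : ℝ))⌋₊ : ℝ) + 1 :=
    Nat.lt_floor_add_one _
  have h11 : (⌊-(s' * ((-(j : ℤ) + C : ℤ) : ℝ))⌋₊ : ℝ) ≤ (⌊-(s * ((-(j : ℤ) : ℤ) : ℝ))⌋₊ : ℝ) := by
    exact_mod_cast h8
  push_cast at h9 h10 h11
  nlinarith

/-- `ℤ ≀ ℤ` is finitely generated. -/
lemma fg_W : Group.FG W := by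
  rw [Group.fg_iff]
  refine ⟨{ι (Finsupp.single 0 1), τ 1}, ?_, Set.toFinite _⟩
  set K := Subgroup.closure ({ι (Finsupp.single 0 1), τ 1} : Set W) with hK
  rw [eq_top_iff]
  have hτ1 : τ 1 ∈ K := Subgroup.subset_closure (by simp)
  have hι1 : ι (Finsupp.single 0 1) ∈ K := Subgroup.subset_closure (by simp)
  have hτ : ∀ k : ℤ, τ k ∈ K := by
    intro k
    obtain ⟨n, rfl | rfl⟩ := Int.eq_nat_or_neg k
    · rw [← τ_pow]; exact K.pow_mem hτ1 n
    · rw [τ_neg, ← τ_pow]; exact K.inv_mem (K.pow_mem hτ1 n)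
  have hιk : ∀ k : ℤ, ι (Finsupp.single k 1) ∈ K := by
    intro k
    have h1 := conj_τ k (Finsupp.single 0 1)
    have h2 : shift k (Finsupp.single (0 : ℤ) (1 : ℤ)) = Finsupp.single k 1 := by
      ext n
      rw [shift_apply, Finsupp.single_apply, Finsupp.single_apply]
      by_cases h : k = n
      · simp [h]
      · rw [if_neg h, if_neg (by omega)]
    rw [h2] at h1
    rw [← h1]
    exact K.mul_mem (K.mul_mem (hτ k) hι1) (hτ (-k))
  let S : AddSubgroup (ℤ →₀ ℤ) :=
    { carrier := {h | ι h ∈ K}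
      add_mem' := fun {a b} ha hb => by
        show ι (a + b) ∈ K
        rw [ι_add]; exact K.mul_mem ha hb
      zero_mem' := by
        show ι 0 ∈ K
        rw [ι_zero]; exact K.one_mem
      neg_mem' := fun {a} ha => by
        show ι (-a) ∈ K
        rw [ι_neg]; exact K.inv_mem ha }
  have hS : ∀ h : ℤ →₀ ℤ, h ∈ S := by
    intro h
    induction h using Finsupp.induction_linear with
    | zero => exact S.zero_mem
    | add a b ha hb => exact S.add_mem ha hb
    | single k c =>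
      have h1 : Finsupp.single k c = c • Finsupp.single k (1 : ℤ) := by
        rw [Finsupp.smul_single, smul_eq_mul, mul_one]
      rw [h1]
      exact S.zsmul_mem (hιk k) c
  intro g _
  rw [decomp g]
  exact K.mul_mem (hS g.f) (hτ g.k)

/-- **The group `ℤ ≀ ℤ` is finitely generated, the poset of its quasi-parabolic hyperbolic
structures contains a chain of the order type of the real line, and so an uncountable chain.** -/
theorem result : Group.FG W ∧ (∃ e : ℝ ↪o Struct W, ∀ r, e r ∈ Hqp W) ∧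
    ∃ c : Set (Struct W), c ⊆ Hqp W ∧ IsChain (· ≤ ·) c ∧ ¬ c.Countable := by
  have hle : ∀ r r' : ℝ, toAntisymmetrization (· ≤ ·) (gen r) ≤
      toAntisymmetrization (· ≤ ·) (gen r') ↔ r ≤ r' := by
    intro r r'
    constructor
    · intro h
      by_contra hlt
      exact gen_not_le (not_le.1 hlt) (toAntisymmetrization_le_toAntisymmetrization_iff.1 h)
    · intro h
      exact toAntisymmetrization_le_toAntisymmetrization_iff.2 (gen_le h)
  let e : ℝ ↪o Struct W := OrderEmbedding.ofMapLEIff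
    (fun r : ℝ => toAntisymmetrization (· ≤ ·) (gen r)) hle
  have he : ∀ r, e r ∈ Hqp W := fun r =>
    ⟨gen r, rfl, hyperbolic_XX (Real.exp_pos r), quasiParabolic_XX (Real.exp_pos r)⟩
  refine ⟨fg_W, ⟨e, he⟩, Set.range e, ?_, ?_, ?_⟩
  · rintro _ ⟨r, rfl⟩
    exact he r
  · rintro _ ⟨r, rfl⟩ _ ⟨r', rfl⟩ _
    rcases le_total r r' with h | h
    · exact Or.inl (e.le_iff_le.2 h)
    · exact Or.inr (e.le_iff_le.2 h)
  · intro hc
    have h1 : (Set.univ : Set ℝ).Countable := by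
      rw [← Set.image_univ] at hc
      exact (Set.countable_of_injective_of_countable_image e.injective.injOn hc)
    exact Cardinal.not_countable_real h1

end Pool.Agent.Results.MP_484ff1_al.UncountableChain
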